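import Mathlib
import Pool.Agent.Q18.P.Val

/-!
# Deligne's conjecture for twists: the absolute values and norms from Euler products on one sequence of windows

`A` is an abelian variety over `ℚ` of dimension `g`, `ψ` a character as in the problem, `S` a finite set of primes
containing the bad ones and those dividing the conductor, `α_{v,j}` the Frobenius eigenvalues at `v ∉ S`, and `E ⊇ ℚ(ψ)` a
number field. For an embedding `τ : E → ℂ` let `ψ^τ` be the conjugate character and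

`F_τ(s) = ∏_{v ∉ S} ∏_j (1 - τ(ψ(v)) α_{v,j} q_v^{-s})⁻¹`, `Re s > 3/2`,

continued holomorphically, with polynomial growth, to a half plane `Re s > 1 - η` (known for `A` of `GL_2`-type, and
expected in general). The Euler factors in `S` of `L_C(A, ψ^τ, 1)` are conjugate algebraic numbers of `E`, nonzero, so that
they do not matter in (i) and (ii) of the problem. Let `w_τ > 0` be the real number for which the assertion of the problem
is `F_τ(1) = u_τ w_τ τ(e)`, `|u_τ| = 1`, with one `e ∈ E` for all `τ`: `w_τ = Ω_A^+ / |τ^*(ψ̌^τ)|^g`. Let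

`P*_τ(y) = exp (- ∑_{v ∉ S, q_v^k ≤ y} Re (τ(ψ(v))^k ∑_j α_{v,j}^k) / (k q_v^k))`.

Fix `0 < δ < 1`; the windows are `[Y^(1-δ), Y]`. `Close_τ(A)`: for each `ε > 0`, `∫ |log (A P*_τ(y))| dy/y ≤ ε log Y` over
the windows of arbitrarily large `Y` (one sequence, as sparse as we like, which may depend on `τ`).

1. (Absolute values.) The Riemann hypothesis for all `F_τ` and the equalities `|F_τ(1)| = w_τ |τ(e)|` for all embeddings
   `τ`, with one `e ∈ E`, `e ≠ 0`, hold together if and only if for one `e ≠ 0` in `E` all `Close_τ(w_τ |τ(e)|)` hold;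
   equivalently, with `for all large Y`. So the assertion of the problem for the absolute values of all conjugates,
   when the values are not zero, is (with the Riemann hypothesis) a statement on windows.
2. (Norms.) For the product `P* = ∏_τ P*_τ`: the Riemann hypothesis for all `F_τ`, and `∏_τ F_τ(1) ∈ W ℚ_{>0}`, where
   `W = ∏_τ w_τ`, hold together if and only if `∫ |log (q W P*(y))| dy/y ≤ ε log Y` for one rational `q > 0`, over the
   windows of arbitrarily large `Y`, for each `ε > 0`. This is the norm of (i), (ii).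
3. For one `τ` with `ψ^τ` real (`ψ² = 1`): the Riemann hypothesis and `F_τ(1) ∈ w_τ ℚ_{>0}` hold together if and only if
   `Close_τ(q w_τ)` for one rational `q > 0`.
-/

set_option autoImplicit false

namespace Pool.Agent.Results.MP_21281f_nt.AbsoluteValueWindows

open Filter Topology Set Complex NumberField IsDedekindDomain MeasureTheory
open Pool.Agent.Q18.P (norm NoZeros Order Holo MeanBound Pure tensor)

/-- the finite places of `ℚ`, that is, the primes; `norm v` is the prime number -/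
abbrev Prime := HeightOneSpectrum (𝓞 ℚ)

variable {E : Type} [Field E] [NumberField E] {g : ℕ}

/-- The Frobenius eigenvalues of `A`: absolute value `√q_v`, real power sums. -/
structure IsFrobenius (S : Finset Prime) (α : Prime → Fin (2 * g) → ℂ) : Prop where
  abs : ∀ v, v ∉ S → ∀ j, ‖α v j‖ = √(norm v : ℝ)
  real : ∀ v, v ∉ S → ∀ k : ℕ, (∑ j, α v j ^ k).im = 0

/-- `F` is holomorphic of polynomial growth in a half plane `Re s > 1 - η` and equal to the Euler product twisted by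
`c` for `Re s > 3/2`. -/
structure IsL (S : Finset Prime) (α : Prime → Fin (2 * g) → ℂ) (c : Prime → ℂ) (F : ℂ → ℂ) : Prop where
  holo : Holo 1 F
  euler : ∀ s : ℂ, 3 / 2 < s.re →
    HasProd (fun v : {v : Prime // v ∉ S} => (∏ j, (1 - α v.1 j * c v.1 * (norm v.1 : ℂ) ^ (-s)))⁻¹) (F s)

/-- `P*(y) = exp (- ∑_{v ∉ S, q_v^k ≤ y} Re (c(v)^k ∑_j α_{v,j}^k) / (k q_v^k))`, `k = p.2 + 1` -/
noncomputable def productStar (S : Finset Prime) (α : Prime → Fin (2 * g) → ℂ) (c : Prime → ℂ) (y : ℝ) : ℝ :=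
  Real.exp (-∑ᶠ (p : {v : Prime // v ∉ S} × ℕ) (_ : (norm p.1.1 : ℝ) ^ (p.2 + 1) ≤ y),
    ((∑ j, α p.1.1 j ^ (p.2 + 1)) * c p.1.1 ^ (p.2 + 1)).re / (((p.2 : ℝ) + 1) * (norm p.1.1 : ℝ) ^ (p.2 + 1)))

/-- `∫ |log (A P(y))| dy/y ≤ ε log Y` over the window `[Y^(1-δ), Y]` -/
def Close (δ : ℝ) (P : ℝ → ℝ) (A ε Y : ℝ) : Prop := MeanBound δ (fun y => |Real.log (A * P y)|) ε Y

/-! ### translation -/

variable {S : Finset Prime} {α : Prime → Fin (2 * g) → ℂ}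

/-- one character as a vector -/
def vec (c : Prime → ℂ) (v : Prime) (_ : Fin 1) : ℂ := c v

theorem bdd_alpha (h : IsFrobenius S α) : Pool.Agent.Q18.P.Bdd 1 S α := by
  intro v hv j
  rw [h.abs v hv j, Real.sqrt_eq_rpow]
  simp

theorem bdd (h : IsFrobenius S α) {c : Prime → ℂ} (hc : ∀ v, v ∉ S → ‖c v‖ = 1) :
    Pool.Agent.Q18.P.Bdd 1 S (tensor α (vec c)) := by
  refine Pool.Agent.Q18.P.tensor_bdd (bdd_alpha h) fun v hv j => ?_
  show ‖c v‖ ≤ _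
  rw [hc v hv]
  simp

theorem euler {c : Prime → ℂ} {F : ℂ → ℂ} (h : IsL S α c F) :
    Pool.Agent.Q18.P.Euler 1 S (tensor α (vec c)) F := by
  intro s hs
  refine (h.euler s (by linarith)).congr_fun fun v => ?_
  rw [Pool.Agent.Q18.P.prod_tensor]
  congr 1
  refine Finset.prod_congr rfl fun j _ => ?_
  rw [Fin.prod_univ_one]
  rfl

theorem star_eq (c : Prime → ℂ) : productStar S α c = Pool.Agent.Q18.P.productStar 1 S (tensor α (vec c)) := by
  funext y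
  unfold productStar Pool.Agent.Q18.P.productStar
  congr 2
  refine finsum_congr fun p => finsum_congr fun _ => ?_
  rw [Pool.Agent.Q18.P.sum_tensor, Fin.sum_univ_one, Real.rpow_one]
  rfl

theorem val {F : ℂ → ℂ} (hH : Holo 1 F) (a : ℂ) :
    Pool.Agent.Q18.P.IsLeading 1 F 0 a ↔ F 1 ≠ 0 ∧ F 1 = a := by
  have := Pool.Agent.Q18.P.lead_zero (a := a) hH
  rwa [Complex.ofReal_one] at this

/-- the law for one complex twist: absolute value of the central value -/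
theorem law (h : IsFrobenius S α) {c : Prime → ℂ} (hc : ∀ v, v ∉ S → ‖c v‖ = 1) {F : ℂ → ℂ} (hF : IsL S α c F)
    {δ : ℝ} (h0 : 0 < δ) (h1 : δ < 1) {A : ℝ} (hA : 0 < A) : List.TFAE [
      NoZeros 1 F ∧ ‖F 1‖ = A,
      ∀ ε : ℝ, 0 < ε → ∃ᶠ Y : ℝ in atTop, Close δ (productStar S α c) A ε Y,
      ∀ ε : ℝ, 0 < ε → ∀ᶠ Y : ℝ in atTop, Close δ (productStar S α c) A ε Y] := by
  have L := Pool.Agent.Q18.P.laws Pool.Agent.Q18.P.EC.one_c (bdd h hc) hF.holo (euler hF) h0 h1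
  have t := L.lead 0 A hA
  have e1 : (NoZeros 1 F ∧ ∃ a : ℂ, Pool.Agent.Q18.P.IsLeading 1 F 0 a ∧ ‖a‖ = A) ↔ NoZeros 1 F ∧ ‖F 1‖ = A := by
    refine and_congr_right fun _ => ⟨?_, fun h => ⟨F 1, (val hF.holo _).2 ⟨?_, rfl⟩, h⟩⟩
    · rintro ⟨a, ha, haA⟩
      rw [((val hF.holo _).1 ha).2, haA]
    · intro h0'
      rw [h0', norm_zero] at h
      linarith
  rw [e1] at t
  simp only [Pool.Agent.Q18.P.ratio_zero] at t
  rw [star_eq]
  exact t

/-- all conjugates as a vector -/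
noncomputable def conjVec (ψ : Prime → E) (v : Prime) (j : Fin (Fintype.card (E →+* ℂ))) : ℂ :=
  (Fintype.equivFin (E →+* ℂ)).symm j (ψ v)

theorem norm_one {ψ : Prime → E} {v : Prime} (h : ∃ n : ℕ, 0 < n ∧ ψ v ^ n = 1) (τ : E →+* ℂ) : ‖τ (ψ v)‖ = 1 := by
  obtain ⟨n, hn, h1⟩ := h
  refine norm_eq_one_of_pow_eq_one (n := n) ?_ hn.ne'
  rw [← map_pow, h1, map_one]

theorem sum_conj (x : E) : (∑ τ : E →+* ℂ, τ x).im = 0 := by
  have h1 := trace_eq_sum_embeddings (K := ℚ) (L := E) ℂ (x := x)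
  have h2 : ∑ τ : E →+* ℂ, τ x = ∑ σ : E →ₐ[ℚ] ℂ, σ x :=
    Fintype.sum_equiv (RingHom.equivRatAlgHom E ℂ) _ _ fun τ => rfl
  rw [h2, ← h1]
  simp

theorem conj_pure (h : IsFrobenius S α) {ψ : Prime → E} (hψ : ∀ v, v ∉ S → ∃ n : ℕ, 0 < n ∧ ψ v ^ n = 1) :
    Pure 1 S (tensor α (conjVec ψ)) := by
  refine Pool.Agent.Q18.P.tensor_pure ⟨bdd_alpha h, h.real⟩ ⟨fun v hv j => ?_, fun v hv k => ?_⟩
  · unfold conjVec
    rw [norm_one (hψ v hv)]
    simp
  · unfold conjVec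
    rw [Equiv.sum_comp (Fintype.equivFin (E →+* ℂ)).symm (fun τ : E →+* ℂ => τ (ψ v) ^ k)]
    simp only [← map_pow]
    exact sum_conj _

theorem conj_euler {ψ : Prime → E} {F : (E →+* ℂ) → ℂ → ℂ}
    (hF : ∀ τ, IsL S α (fun v => τ (ψ v)) (F τ)) :
    Pool.Agent.Q18.P.Euler 1 S (tensor α (conjVec ψ)) (fun s => ∏ τ, F τ s) := by
  intro s hs
  have h1 : HasProd (fun v : {v : Prime // v ∉ S} => ∏ τ : E →+* ℂ,
      (∏ j, (1 - α v.1 j * τ (ψ v.1) * (norm v.1 : ℂ) ^ (-s)))⁻¹) (∏ τ, F τ s) :=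
    hasProd_prod fun τ _ => (hF τ).euler s (by linarith)
  refine h1.congr_fun fun v => ?_
  rw [Pool.Agent.Q18.P.prod_tensor, Finset.prod_inv_distrib]
  congr 1
  rw [Finset.prod_comm]
  exact Equiv.prod_comp (Fintype.equivFin (E →+* ℂ)).symm
    (fun τ : E →+* ℂ => ∏ j, (1 - α v.1 j * τ (ψ v.1) * (norm v.1 : ℂ) ^ (-s)))

theorem holo_prod {ι : Type} (s : Finset ι) {F : ι → ℂ → ℂ} (h : ∀ i ∈ s, Holo 1 (F i)) :
    Holo 1 (fun z => ∏ i ∈ s, F i z) := by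
  classical
  induction s using Finset.induction_on with
  | empty => exact ⟨1, 1, 0, one_pos, fun z _ => ⟨by simp, by simp⟩⟩
  | insert i s hi ih =>
    obtain ⟨η, C, k, hη, h1⟩ := ih fun j hj => h j (Finset.mem_insert_of_mem hj)
    obtain ⟨η', C', k', hη', h2⟩ := h i (Finset.mem_insert_self i s)
    refine ⟨min η η', C' * C, k' + k, lt_min hη hη', fun z hz => ?_⟩
    have hz1 : 1 - η < z.re := lt_of_le_of_lt (by linarith [min_le_left η η']) hz
    have hz2 : 1 - η' < z.re := lt_of_le_of_lt (by linarith [min_le_right η η']) hz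
    obtain ⟨d1, b1⟩ := h1 z hz1
    obtain ⟨d2, b2⟩ := h2 z hz2
    simp only [Finset.prod_insert hi]
    refine ⟨d2.mul d1, ?_⟩
    rw [norm_mul, pow_add]
    calc ‖F i z‖ * ‖∏ i ∈ s, F i z‖ ≤ (C' * (1 + ‖z‖) ^ k') * (C * (1 + ‖z‖) ^ k) :=
          mul_le_mul b2 b1 (norm_nonneg _) ((norm_nonneg _).trans b2)
      _ = _ := by ring

theorem star_prod {ψ : Prime → E} (y : ℝ) :
    Pool.Agent.Q18.P.productStar 1 S (tensor α (conjVec ψ)) y = ∏ τ : E →+* ℂ, productStar S α (fun v => τ (ψ v)) y := by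
  classical
  unfold productStar Pool.Agent.Q18.P.productStar
  rw [← Real.exp_sum, Finset.sum_neg_distrib]
  congr 2
  have hfin := Pool.Agent.Q18.P.pow_finite (K := ℚ) S y
  have e1 : ∀ β : {v : Prime // v ∉ S} × ℕ → ℝ,
      (∑ᶠ (p : {v : Prime // v ∉ S} × ℕ) (_ : (norm p.1.1 : ℝ) ^ (p.2 + 1) ≤ y), β p) =
        ∑ p ∈ hfin.toFinset, β p := fun β => finsum_mem_eq_finite_toFinset_sum β hfin
  rw [e1, Finset.sum_congr rfl fun τ _ => e1 _, Finset.sum_comm]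
  refine Finset.sum_congr rfl fun p _ => ?_
  rw [← Finset.sum_div, Real.rpow_one, Pool.Agent.Q18.P.sum_tensor]
  congr 1
  rw [← Complex.re_sum, ← Finset.mul_sum]
  congr 2
  unfold conjVec
  rw [Equiv.sum_comp (Fintype.equivFin (E →+* ℂ)).symm (fun τ : E →+* ℂ => τ (ψ p.1.1) ^ (p.2 + 1))]

/-- **Deligne's conjecture for twists of abelian varieties: absolute values and norms of the central values, the Riemann
hypothesis, and Euler products on one sequence of windows.** -/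
theorem result (E : Type) [Field E] [NumberField E] (g : ℕ) (S : Finset Prime) (α : Prime → Fin (2 * g) → ℂ)
    (hα : IsFrobenius S α) (ψ : Prime → E) (hψ : ∀ v, v ∉ S → ∃ n : ℕ, 0 < n ∧ ψ v ^ n = 1)
    (F : (E →+* ℂ) → ℂ → ℂ) (hF : ∀ τ, IsL S α (fun v => τ (ψ v)) (F τ)) (w : (E →+* ℂ) → ℝ) (hw : ∀ τ, 0 < w τ)
    (δ : ℝ) (h0 : 0 < δ) (h1 : δ < 1) :
    -- (1) absolute values
    List.TFAE [
      (∀ τ, NoZeros 1 (F τ)) ∧ ∃ e : E, e ≠ 0 ∧ ∀ τ, ‖F τ 1‖ = w τ * ‖τ e‖,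
      ∃ e : E, e ≠ 0 ∧ ∀ τ, ∀ ε : ℝ, 0 < ε → ∃ᶠ Y : ℝ in atTop,
        Close δ (productStar S α fun v => τ (ψ v)) (w τ * ‖τ e‖) ε Y,
      ∃ e : E, e ≠ 0 ∧ ∀ τ, ∀ ε : ℝ, 0 < ε → ∀ᶠ Y : ℝ in atTop,
        Close δ (productStar S α fun v => τ (ψ v)) (w τ * ‖τ e‖) ε Y] ∧
    -- (2) norms
    List.TFAE [
      (∀ τ, NoZeros 1 (F τ)) ∧ ∃ q : ℚ, 0 < q ∧ ∏ τ, F τ 1 = ((q * ∏ τ, w τ : ℝ) : ℂ),
      ∃ q : ℚ, 0 < q ∧ ∀ ε : ℝ, 0 < ε → ∃ᶠ Y : ℝ in atTop,
        Close δ (fun y => ∏ τ : E →+* ℂ, productStar S α (fun v => τ (ψ v)) y) (q * ∏ τ, w τ) ε Y,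
      ∃ q : ℚ, 0 < q ∧ ∀ ε : ℝ, 0 < ε → ∀ᶠ Y : ℝ in atTop,
        Close δ (fun y => ∏ τ : E →+* ℂ, productStar S α (fun v => τ (ψ v)) y) (q * ∏ τ, w τ) ε Y] ∧
    -- (3) real characters
    (∀ τ, (∀ v, v ∉ S → (τ (ψ v)).im = 0) → List.TFAE [
      NoZeros 1 (F τ) ∧ ∃ q : ℚ, 0 < q ∧ F τ 1 = ((q * w τ : ℝ) : ℂ),
      ∃ q : ℚ, 0 < q ∧ ∀ ε : ℝ, 0 < ε → ∃ᶠ Y : ℝ in atTop,
        Close δ (productStar S α fun v => τ (ψ v)) (q * w τ) ε Y,
      ∃ q : ℚ, 0 < q ∧ ∀ ε : ℝ, 0 < ε → ∀ᶠ Y : ℝ in atTop,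
        Close δ (productStar S α fun v => τ (ψ v)) (q * w τ) ε Y]) := by
  classical
  have law1 : ∀ (τ : E →+* ℂ) (A : ℝ), 0 < A → ((NoZeros 1 (F τ) ∧ ‖F τ 1‖ = A) ↔ ∀ ε : ℝ, 0 < ε →
      ∃ᶠ Y : ℝ in atTop, Close δ (productStar S α fun v => τ (ψ v)) A ε Y) := fun τ A hA =>
    (law hα (fun v hv => norm_one (hψ v hv) τ) (hF τ) h0 h1 hA).out 0 1
  have law2 : ∀ (τ : E →+* ℂ) (A : ℝ), 0 < A → ((NoZeros 1 (F τ) ∧ ‖F τ 1‖ = A) ↔ ∀ ε : ℝ, 0 < ε →
      ∀ᶠ Y : ℝ in atTop, Close δ (productStar S α fun v => τ (ψ v)) A ε Y) := fun τ A hA =>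
    (law hα (fun v hv => norm_one (hψ v hv) τ) (hF τ) h0 h1 hA).out 0 2
  have pos : ∀ (τ : E →+* ℂ) (e : E), e ≠ 0 → 0 < w τ * ‖τ e‖ := fun τ e he =>
    mul_pos (hw τ) (norm_pos_iff.2 ((map_ne_zero τ).2 he))
  have hW : 0 < ∏ τ, w τ := Finset.prod_pos fun τ _ => hw τ
  -- rational multiples
  have ratset : ∀ (W : ℝ) (p : ℝ → Prop), (∃ A ∈ {A : ℝ | ∃ q : ℚ, 0 < q ∧ A = q * W}, p A) ↔
      ∃ q : ℚ, 0 < q ∧ p (q * W) := by
    intro W p
    constructor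
    · rintro ⟨A, ⟨q, hq, rfl⟩, h⟩
      exact ⟨q, hq, h⟩
    · rintro ⟨q, hq, h⟩
      exact ⟨_, ⟨q, hq, rfl⟩, h⟩
  refine ⟨?_, ?_, fun τ hτ => ?_⟩
  · tfae_have 1 → 3 := by
      rintro ⟨hz, e, he, h⟩
      exact ⟨e, he, fun τ => (law2 τ _ (pos τ e he)).1 ⟨hz τ, h τ⟩⟩
    tfae_have 3 → 2 := fun ⟨e, he, h⟩ => ⟨e, he, fun τ ε hε => (h τ ε hε).frequently⟩
    tfae_have 2 → 1 := by
      rintro ⟨e, he, h⟩
      have h2 := fun τ => (law1 τ _ (pos τ e he)).2 (h τ)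
      exact ⟨fun τ => (h2 τ).1, e, he, fun τ => (h2 τ).2⟩
    tfae_finish
  · have hH : Holo 1 (fun s => ∏ τ, F τ s) := holo_prod _ fun τ _ => (hF τ).holo
    have t := Pool.Agent.Q18.P.lead_mem Pool.Agent.Q18.P.EC.one_c (conj_pure hα hψ) hH (conj_euler hF) h0 h1 0
      {A : ℝ | ∃ q : ℚ, 0 < q ∧ A = q * ∏ τ, w τ} (by
        rintro A ⟨q, hq, rfl⟩
        exact mul_pos (by exact_mod_cast hq) hW)
    rw [ratset, ratset, ratset] at t
    simp only [Pool.Agent.Q18.P.ratio_zero, star_prod] at t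
    have e1 : (NoZeros 1 (fun s => ∏ τ, F τ s) ∧ ∃ q : ℚ, 0 < q ∧
        Pool.Agent.Q18.P.IsLeading 1 (fun s => ∏ τ, F τ s) 0 (((q * ∏ τ, w τ : ℝ)) : ℂ)) ↔
        ((∀ τ, NoZeros 1 (F τ)) ∧ ∃ q : ℚ, 0 < q ∧ ∏ τ, F τ 1 = ((q * ∏ τ, w τ : ℝ) : ℂ)) := by
      refine and_congr ⟨fun h τ s hs h0' => h s hs ?_, fun h s hs => ?_⟩ (exists_congr fun q => and_congr_right fun hq => ?_)
      · exact Finset.prod_eq_zero (Finset.mem_univ τ) h0'
      · exact Finset.prod_ne_zero_iff.2 fun τ _ => h τ s hs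
      · rw [val hH]
        refine ⟨fun h => h.2, fun h => ⟨?_, h⟩⟩
        show ∏ τ, F τ 1 ≠ 0
        rw [h]
        have : (q * ∏ τ, w τ : ℝ) ≠ 0 := (mul_pos (by exact_mod_cast hq) hW).ne'
        exact_mod_cast this
    rw [e1] at t
    exact t
  · have hP : Pure 1 S (tensor α (vec fun v => τ (ψ v))) := by
      refine Pool.Agent.Q18.P.tensor_pure ⟨bdd_alpha hα, hα.real⟩ ⟨fun v hv j => ?_, fun v hv k => ?_⟩
      · show ‖τ (ψ v)‖ ≤ _
        rw [norm_one (hψ v hv)]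
        simp
      · rw [Fin.sum_univ_one]
        show (τ (ψ v) ^ k).im = 0
        have h2 : τ (ψ v) = ((τ (ψ v)).re : ℂ) := by
          apply Complex.ext
          · simp
          · rw [hτ v hv, Complex.ofReal_im]
        rw [h2, ← Complex.ofReal_pow, Complex.ofReal_im]
    have t := Pool.Agent.Q18.P.lead_mem Pool.Agent.Q18.P.EC.one_c hP (hF τ).holo (euler (hF τ)) h0 h1 0
      {A : ℝ | ∃ q : ℚ, 0 < q ∧ A = q * w τ} (by
        rintro A ⟨q, hq, rfl⟩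
        exact mul_pos (by exact_mod_cast hq) (hw τ))
    rw [ratset, ratset, ratset] at t
    simp only [Pool.Agent.Q18.P.ratio_zero] at t
    have e1 : (NoZeros 1 (F τ) ∧ ∃ q : ℚ, 0 < q ∧ Pool.Agent.Q18.P.IsLeading 1 (F τ) 0 (((q * w τ : ℝ)) : ℂ)) ↔
        (NoZeros 1 (F τ) ∧ ∃ q : ℚ, 0 < q ∧ F τ 1 = ((q * w τ : ℝ) : ℂ)) := by
      refine and_congr_right fun _ => exists_congr fun q => and_congr_right fun hq => ?_
      rw [val (hF τ).holo]
      refine ⟨fun h => h.2, fun h => ⟨?_, h⟩⟩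
      rw [h]
      have : (q * w τ : ℝ) ≠ 0 := (mul_pos (by exact_mod_cast hq) (hw τ)).ne'
      exact_mod_cast this
    rw [e1] at t
    rw [star_eq]
    exact t

end Pool.Agent.Results.MP_21281f_nt.AbsoluteValueWindows
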