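import Pool.Agent.Q49.WU.Facts

/-!
# Twists of abelian varieties and one weight of hypergraph cubics

Let `M` be the category of motives over `ℚ` for absolute Hodge cycles with rational coefficients all of
whose weights are odd, a semisimple abelian category with Tate twists `N ↦ N(a)`. For a separated
`ℚ`-scheme `X` of finite type and integers `N`, `n` let `D.H N n X = Gr^W_{1+2N} H^n_c(X)`, the part of
weight `1 + 2N` of the cohomology with compact supports. For smooth projective `X` it is `h^n(X)` if
`n = 1 + 2N` and zero otherwise; for `X = Spec ℚ` it is zero.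

The largest direct summand of an object `N` of `M` which is a direct sum of objects `h^1(A_a)(a)`, `a ∈ ℤ`,
for abelian varieties `A_a` over `ℚ`, defines an abelian variety `A_N = ∏ A_a` up to isogeny, and
`A_{N ⊕ N'} = A_N × A_{N'}`. For a field `F` as in the problem (`i ∈ I`), `G = Gal(F/ℚ)`, let
`V.val i N` be the element of `ℂ[G] = ∏_ψ ℂ` with the components `𝓛_C(A_N, ψ)`, `ψ ∈ Ĝ` (up to isogeny
and rational factors; it is a product if `A_N` is a product, because the `L`-functions, the periods and
the powers of the Gauss sums are multiplicative). The statements (i) and (ii) of question Q1 for `A_N` and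
`F` say that this element is in `ℚ[G]`. `Rational V N` says that this is true for all `F`.
`Holds D V N X` says that it is true for all direct factors of all Tate twists of the objects
`D.H N n X`, `n ∈ ℤ`. (As in the problem, the analytic continuation to `z = 1` is presupposed.)

The direct factors of `h^1(Y)`, `Y` smooth projective over `ℚ`, are the motives `h^1(A)` of the abelian
varieties `A` over `ℚ`. So `Holds D V 0 Y` for all `Y` is question Q1.

**Theorem.** The following are equivalent:

* question Q1 has a positive answer, for all abelian varieties `A` over `ℚ`, all `F` and all `ψ`;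
* (i) and (ii) are true for all abelian varieties `A` such that `h^1(A)(1 - a)` is a direct factor of
  `Gr^W_{2a-1} H^n_c(X_H)` for some `n` and some smooth affine cubic hypersurface
  `X_H : ∑_{(i, j, l) ∈ H} x_i y_j z_l = 1`, where `H` is a finite set of triples and `a` is the number
  of the variables `x_i`.
-/

set_option autoImplicit false

open CategoryTheory CategoryTheory.Limits AlgebraicGeometry Pool.Agent.Y116.UV Pool.Agent.Z125.UN
  Pool.Agent.Q193.LT Pool.Agent.Q49.WU

universe v u

namespace Pool.Agent.Results.MP_21281f_nt.HypergraphWeights

/-- For all `i ∈ I` (the fields `F`) an element `val i N` of a commutative `ℚ`-algebra `A i`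
(the group algebra `ℂ[G]`), which depends on the object `N` of the category `M`. -/
structure ValData (M : Type u) {I : Type} (A : I → Type) where
  /-- the values of all twists by characters of `G` -/
  val : ∀ i, M → A i

section

variable {M : Type u} [Category.{v} M] [Abelian M] {I : Type} {A : I → Type}
  [∀ i, CommRing (A i)] [∀ i, Algebra ℚ (A i)]

/-- The values are multiplicative in direct sums, up to nonzero rational factors. -/
structure IsVal (V : ValData M A) : Prop where
  iso : ∀ i {N N' : M}, (N ≅ N') → ∃ u : ℚ, V.val i N = u • V.val i N'
  zero : ∀ i {N : M}, IsZero N → ∃ u : ℚ, V.val i N = u • (1 : A i)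
  sum : ∀ i (N N' : M), ∃ u : ℚ, V.val i (N ⊞ N') = u • (V.val i N * V.val i N')

/-- The values are in the given subalgebras (the group algebras `ℚ[G]`) for all `i`. -/
def Rational (S : ∀ i, Subalgebra ℚ (A i)) (V : ValData M A) (N : M) : Prop :=
  ∀ i, V.val i N ∈ S i

/-- This is true for all direct factors of all Tate twists of the objects `D.H N n X`. -/
def Holds (D : WeightData ℚ M) (S : ∀ i, Subalgebra ℚ (A i)) (V : ValData M A) (N : ℤ)
    (X : Sch ℚ) : Prop :=
  InAt D (TwFacts D (Rational S V)) N X

/-- **Twists of abelian varieties and hypergraph cubics.** See the explanations above; by `point` the odd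
weights of the cohomology of `Spec ℚ` are zero. -/
theorem result {D : WeightData ℚ M} (h : IsWMotives D) (point : ∀ N n, IsZero (D.H N n (aff ℚ ℚ)))
    {S : ∀ i, Subalgebra ℚ (A i)} {V : ValData M A} (hV : IsVal V) :
    (∀ Y : Sch ℚ, SmoothProj Y → Holds D S V 0 Y) ↔
      ∀ (a b c : ℕ) (H : Finset (Fin a × Fin b × Fin c)), Holds D S V (a - 1) (tripS ℚ H) := by
  have hS : TwSerre D (TwFacts D (Rational S V)) := by
    refine twFacts_serre h.weight h.semisimple ?_ ?_ ?_
    · intro X hX i
      obtain ⟨u, hu⟩ := hV.zero i hX
      rw [hu]
      exact (S i).smul_mem (one_mem _) u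
    · intro X Y e hX i
      obtain ⟨u, hu⟩ := hV.iso i e.symm
      rw [hu]
      exact (S i).smul_mem (hX i) u
    · intro X Y hX hY i
      obtain ⟨u, hu⟩ := hV.sum i X Y
      rw [hu]
      exact (S i).smul_mem (mul_mem (hX i) (hY i)) u
  have h1 := sp_weight_graph h.weight h.generated hS
    (fun N n => hS.toIsSerre.zero _ (point N n)) frac_rat 0
  simp only [zero_add] at h1
  exact h1

end

end Pool.Agent.Results.MP_21281f_nt.HypergraphWeights
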