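import Pool.Agent.Q233.KT.Main

/-!
# Deligne's period conjecture for twists of abelian varieties and hyper-Kloosterman sums

`A` is an abelian variety over `ℚ` of dimension `d`, `P ℓ` its local factor at the prime `ℓ`, with reciprocal
roots `α ℓ j` (`j < 2d`, zeros allowed), `|α ℓ j| ≤ √ℓ`. `F` is an abelian field of conductor `f`, given by
the surjection `π : (ℤ/f)ˣ → G = Gal(F/ℚ)`, `a ↦ σ_a|_F`. For a character `ψ` of `G`, `dchar π ψ` is the Dirichlet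
character `a ↦ ψ(a)` modulo `f`, `tau π ψ = ∑_{a mod f} ψ(a) e(a/f)` the Gauss sum and `L ψ` the analytic
continuation of `∏_{ℓ ∤ f} P_ℓ(ψ(ℓ) ℓ^{-z})⁻¹` to a connected open set `U` containing `1`
(`ψ(ℓ) = 0` for `ℓ ∣ f`, so these factors are `1`).
-/

set_option autoImplicit false

namespace Pool.Agent.Results.MP_21281f_nt.KloostermanTwists

open Finset Polynomial LSeries Pool.Agent.Q233.KT

/-- `𝓛_C(A, ψ) = τ(ψ⁻¹)^d L_C(A, ψ, 1) / Ω` -/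
noncomputable def LL {f : ℕ} [NeZero f] {G : Type} [CommGroup G] [Fintype G] (π : (ZMod f)ˣ →* G) (d : ℕ)
    (L : (G →* ℂˣ) → ℂ → ℂ) (Ω : ℂ) (ψ : G →* ℂˣ) : ℂ :=
  tau π ψ⁻¹ ^ d * L ψ 1 / Ω

/-- Let `a(n)` be the Dirichlet coefficients of `∏_ℓ P_ℓ(ℓ^{-z})⁻¹` and `Kl π d σ n` the hyper-Kloosterman sum:
the sum of `e((x_1 + ... + x_d)/f)` over all `x_1, ..., x_d` in `(ℤ/f)ˣ` with `σ_n = σ σ_{x_1 ⋯ x_d}` on `F`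
(`0` if `n` is not prime to `f`).

* The Dirichlet series `∑ a(n) Kl(σ, n) n^{-z}`, `Re z > 3/2`, has a unique analytic continuation `D σ` to `U`.
* `𝓛_C(A, ψ) = ∑_σ ψ(σ) D_σ(1)/Ω` for all `ψ`.
* (i) and (ii) of the question hold for all `ψ` if and only if `D_σ(1)` is a rational multiple of `Ω` for all
  `σ ∈ G`; then the element `∑ (D_σ(1)/Ω) σ` of `ℚ[G]` has `ψ`-value `𝓛_C(A, ψ)`.
* With a denominator: for `M ≥ 1` there is `θ ∈ ℤ[G]` with `M 𝓛_C(A, ψ) = ψ(θ)` for all `ψ`, if and only if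
  `M D_σ(1)` is an integral multiple of `Ω` for all `σ`. -/
theorem result {f : ℕ} [NeZero f] {G : Type} [CommGroup G] [Fintype G] (π : (ZMod f)ˣ →* G)
    (_hπ : Function.Surjective π) (d : ℕ)
    (P : ℕ → ℤ[X]) (α : ℕ → Fin (2 * d) → ℂ)
    (hP : ∀ ℓ : ℕ, ℓ.Prime → (P ℓ).map (Int.castRingHom ℂ) = ∏ j, (1 - C (α ℓ j) * X))
    (hα : ∀ ℓ : ℕ, ℓ.Prime → ∀ j, ‖α ℓ j‖ ≤ (ℓ : ℝ) ^ (1 / 2 : ℝ))
    (U : Set ℂ) (hU : IsPreconnected U) (hUo : IsOpen U) (h1 : (1 : ℂ) ∈ U)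
    (hUh : {z : ℂ | (1 / 2 : ℝ) + 1 < z.re} ⊆ U)
    (L : (G →* ℂˣ) → ℂ → ℂ) (hLa : ∀ ψ, AnalyticOnNhd ℂ (L ψ) U)
    (hL : ∀ ψ, ∀ z : ℂ, (1 / 2 : ℝ) + 1 < z.re → HasProd (fun ℓ : Nat.Primes =>
      (aeval (dchar π ψ ((ℓ : ℕ) : ZMod f) * (ℓ : ℂ) ^ (-z)) (P ℓ))⁻¹) (L ψ z))
    (Ω : ℂ) (hΩ : Ω ≠ 0) :
    (∃ D, IsKl π d α (1 / 2) U D) ∧
    ∀ D : G → ℂ → ℂ, IsKl π d α (1 / 2) U D →
      (∀ D', IsKl π d α (1 / 2) U D' → ∀ σ, Set.EqOn (D σ) (D' σ) U) ∧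
      (∀ ψ, LL π d L Ω ψ = ∑ σ : G, D σ 1 / Ω * ((ψ σ : ℂˣ) : ℂ)) ∧
      ((∀ ψ, Equivariant (LL π d L Ω) ψ) ↔ ∀ σ, ∃ q : ℚ, D σ 1 = q * Ω) ∧
      (∀ M : ℕ, (∃ θ : G → ℤ, ∀ ψ : G →* ℂˣ, M * LL π d L Ω ψ = ∑ σ : G, θ σ * ((ψ σ : ℂˣ) : ℂ)) ↔
        ∀ σ, ∃ q : ℤ, M * D σ 1 = q * Ω) := by
  have hL' : ∀ ψ, ∀ z : ℂ, (1 / 2 : ℝ) + 1 < z.re → HasProd (fun ℓ : Nat.Primes =>
      (∏ j, (1 - α ℓ j * (dchar π ψ ((ℓ : ℕ) : ZMod f) * (ℓ : ℂ) ^ (-z))))⁻¹) (L ψ z) := by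
    intro ψ z hz
    refine (hL ψ z hz).congr_fun fun ℓ => ?_
    congr 1
    rw [Polynomial.aeval_def, ← Polynomial.eval_map]
    have h2 : (P ℓ).map (algebraMap ℤ ℂ) = ∏ j, (1 - C (α ℓ j) * X) := hP ℓ ℓ.2
    rw [h2, eval_prod]
    simp
  have hD0 := isKl_D0 π d α (1 / 2) hα U L hLa hL'
  refine ⟨⟨_, hD0⟩, fun D hD => ?_⟩
  have huni : ∀ D', IsKl π d α (1 / 2) U D' → ∀ σ, Set.EqOn (D σ) (D' σ) U := fun D' hD' σ =>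
    isKl_unique hU hUo hUh hD hD' σ
  have hval : ∀ σ, D σ 1 = Pool.Agent.Q233.KT.coeff (fun ψ => tau π ψ⁻¹ ^ d * L ψ 1) σ := fun σ =>
    huni _ hD0 σ h1
  have hco : ∀ σ, Pool.Agent.Q233.KT.coeff (LL π d L Ω) σ = D σ 1 / Ω := by
    intro σ
    rw [hval σ]
    unfold Pool.Agent.Q233.KT.coeff LL
    rw [mul_div_assoc, Finset.sum_div]
    congr 1
    refine Finset.sum_congr rfl fun ψ _ => ?_
    ring
  have hinv : ∀ ψ, LL π d L Ω ψ = ∑ σ : G, D σ 1 / Ω * ((ψ σ : ℂˣ) : ℂ) := by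
    intro ψ
    rw [inversion (LL π d L Ω) ψ]
    simp only [hco]
  refine ⟨huni, hinv, ?_, fun M => ⟨?_, ?_⟩⟩
  · rw [rational_iff]
    refine forall_congr' fun σ => exists_congr fun q => ?_
    rw [hco, div_eq_iff hΩ]
  · rintro ⟨θ, hθ⟩ σ
    refine ⟨θ σ, ?_⟩
    have h2 := coeff_of_sum (fun ψ => (M : ℂ) * LL π d L Ω ψ) (fun σ => (θ σ : ℂ)) hθ σ
    have h3 : Pool.Agent.Q233.KT.coeff (fun ψ => (M : ℂ) * LL π d L Ω ψ) σ = M * Pool.Agent.Q233.KT.coeff (LL π d L Ω) σ := by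
      unfold Pool.Agent.Q233.KT.coeff
      have h4 : ∀ ψ : G →* ℂˣ, ((ψ σ : ℂˣ) : ℂ)⁻¹ * ((M : ℂ) * LL π d L Ω ψ) =
          (M : ℂ) * (((ψ σ : ℂˣ) : ℂ)⁻¹ * LL π d L Ω ψ) := fun ψ => by ring
      simp only [h4]
      rw [← Finset.mul_sum]
      ring
    rw [h3, hco] at h2
    rw [← h2]
    field_simp
  · intro h
    choose q hq using h
    refine ⟨q, fun ψ => ?_⟩
    rw [hinv ψ, Finset.mul_sum]
    refine Finset.sum_congr rfl fun σ _ => ?_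
    rw [← mul_assoc, mul_div_assoc', hq σ, mul_div_cancel_right₀ _ hΩ]

end Pool.Agent.Results.MP_21281f_nt.KloostermanTwists
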