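import Pool.Agent.Q45.ML.Rat

/-!
# Deligne's period relation for twists of abelian varieties, from smoothed Frobenius traces

Let `A` be an abelian variety over `ℚ` with local polynomials `P ℓ ∈ ℚ[X]`, `P ℓ = ∏_j (1 - α ℓ j X)`,
`|α ℓ j| ≤ √ℓ`, and `ψ` a Dirichlet character modulo `f` with values in a number field `E`. For every embedding
`τ : E → ℂ` let `ψ^τ` be its image, `L τ` the continuation of `∏_ℓ P ℓ(ψ^τ(ℓ) ℓ^{-s})⁻¹` (the primes `ℓ ∣ f` contribute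
`1`), and

`S_τ(T) = ∑_ℓ ∑_{k ≥ 1} (ψ^τ(ℓ)^k ∑_j (α ℓ j)^k / (k ℓ^k)) e^{iγ k log ℓ/T} / Γ(1 + k log ℓ/T)`.

Then `e^{S_τ(T)} = L_τ(1) + O(1/T)`, and both parts of the conjecture (rationality over `E` and Galois equivariance: there
is `e ∈ E` with `τ*(ψ̌^τ)^d L_τ(1)/Ω = τ(e)` for all `τ`) hold if and only if for some `D ≥ 1` the vectors
`(D τ*(ψ̌^τ)^d e^{S_τ(T)}/Ω)_τ` approach the lattice `𝓞_E` along one sequence `T → ∞`.
-/

set_option autoImplicit false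

namespace Pool.Agent.Results.MP_21281f_nt.TwistedPeriodLattice

open Filter Topology Asymptotics Polynomial Pool.Agent.Q45.ML NumberField

/-- the value `ψ^τ(a) ∈ ℂ` -/
noncomputable def val {E : Type} [Field E] {f : ℕ} (ψ : DirichletCharacter E f) (τ : E →+* ℂ) (a : ℕ) : ℂ :=
  τ (ψ (a : ZMod f))

/-- the Gauss sum `∑_{1 ≤ a ≤ f, gcd(a, f) = 1} ψ^τ(a)⁻¹ e^{2πi a/f}` of the inverse character -/
noncomputable def gauss {E : Type} [Field E] {f : ℕ} (ψ : DirichletCharacter E f) (τ : E →+* ℂ) : ℂ :=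
  ∑ a ∈ (Finset.Icc 1 f).filter (fun a => Nat.Coprime a f),
    (val ψ τ a)⁻¹ * Complex.exp (2 * Real.pi * Complex.I * a / f)

/-- the term at `(ℓ, k)`, `k = z.2 + 1`:
`(ψ^τ(ℓ)^k ∑_j (α ℓ j)^k / (k ℓ^k)) e^{iγ k log ℓ/T} / Γ(1 + k log ℓ/T)` -/
noncomputable def term {E : Type} [Field E] {n f : ℕ} (α : Nat.Primes → Fin n → ℂ)
    (ψ : DirichletCharacter E f) (τ : E →+* ℂ) (γ T : ℝ) (z : Nat.Primes × ℕ) : ℂ :=
  (val ψ τ z.1 ^ (z.2 + 1) * ∑ j, α z.1 j ^ (z.2 + 1)) / ((z.2 + 1) * (z.1 : ℂ) ^ (z.2 + 1)) *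
    (Complex.exp ((γ * ((z.2 + 1) * Real.log (z.1 : ℝ) / T) : ℝ) * Complex.I) /
      (Real.Gamma (1 + (z.2 + 1) * Real.log (z.1 : ℝ) / T) : ℂ))

/-- the smoothed sum -/
noncomputable def S {E : Type} [Field E] {n f : ℕ} (α : Nat.Primes → Fin n → ℂ)
    (ψ : DirichletCharacter E f) (τ : E →+* ℂ) (γ T : ℝ) : ℂ := ∑' z, term α ψ τ γ T z

theorem term_eq {E : Type} [Field E] {n f : ℕ} (α : Nat.Primes → Fin n → ℂ)
    (ψ : DirichletCharacter E f) (τ : E →+* ℂ) (γ T : ℝ) (z : Nat.Primes × ℕ) :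
    term α ψ τ γ T z =
      sterm (fun p : Nat.Primes => (p : ℝ)) (fun p j => α p j * val ψ τ p) 1 γ T z := by
  unfold term sterm
  have e : ((((z.2 : ℝ) + 1) * (1 : ℝ) : ℝ) : ℂ) = ((z.2 + 1 : ℕ) : ℂ) := by
    push_cast; ring
  rw [e, Complex.cpow_natCast]
  simp only [mul_pow]
  rw [← Finset.sum_mul, mul_comm (∑ j, α z.1 j ^ (z.2 + 1))]
  push_cast
  rfl

/-- the values of a Dirichlet character have absolute value at most `1` -/
theorem val_le {E : Type} [Field E] {f : ℕ} [NeZero f] (ψ : DirichletCharacter E f) (τ : E →+* ℂ)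
    (a : ℕ) : ‖val ψ τ a‖ ≤ 1 := by
  unfold val
  have h := DirichletCharacter.norm_le_one (ψ.ringHomComp τ) (a : ZMod f)
  simpa using h

theorem result (E : Type) [Field E] [NumberField E] {d f : ℕ} [NeZero f] (P : Nat.Primes → ℚ[X])
    (α : Nat.Primes → Fin (2 * d) → ℂ)
    (hP : ∀ p, (P p).map (algebraMap ℚ ℂ) = ∏ j, (1 - C (α p j) * X))
    (hα : ∀ p j, ‖α p j‖ ≤ (p : ℝ) ^ (1 / 2 : ℝ)) (ψ : DirichletCharacter E f)
    (L : (E →+* ℂ) → ℂ → ℂ) (hmer : ∀ τ, ∀ σ : ℝ, 1 ≤ σ → σ ≤ 3 / 2 → MeromorphicAt (L τ) (σ : ℂ))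
    (hA : ∀ τ, AnalyticAt ℂ (L τ) 1)
    (hL : ∀ τ, ∀ s : ℂ, 3 / 2 < s.re →
      HasProd (fun p : Nat.Primes => (aeval (val ψ τ p * (p : ℂ) ^ (-s)) (P p))⁻¹) (L τ s))
    (Ω : ℝ) (hΩ : Ω ≠ 0) {γ : ℝ} (hγ : Real.pi / 2 < γ) :
    (∀ τ, ∀ T : ℝ, 0 < T → Summable fun z => ‖term α ψ τ γ T z‖) ∧
    (∀ τ, (fun T : ℝ => Complex.exp (S α ψ τ γ T) - L τ 1) =O[atTop] (fun T : ℝ => 1 / T)) ∧
    ((∃ e : E, ∀ τ : E →+* ℂ, gauss ψ τ ^ d * L τ 1 / Ω = τ e) ↔ ∃ D : ℕ, 0 < D ∧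
      ∃ t : ℕ → ℝ, Tendsto t atTop atTop ∧ Tendsto
        (fun i => Metric.infDist (fun τ => (D : ℂ) *
            (gauss ψ τ ^ d * Complex.exp (S α ψ τ γ (t i)) / Ω))
          (Set.range fun (a : 𝓞 E) (τ : E →+* ℂ) => τ a)) atTop (𝓝 0)) := by
  have hE : ∀ τ, Eul (2 * d) (fun p : Nat.Primes => (p : ℝ)) (fun p j => α p j * val ψ τ p)
      (1 / 2) 1 := by
    intro τ
    refine eul_q fun p j => ?_
    rw [norm_mul]
    calc ‖α p j‖ * ‖val ψ τ p‖ ≤ (p : ℝ) ^ (1 / 2 : ℝ) * 1 :=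
          mul_le_mul (hα p j) (val_le ψ τ p) (norm_nonneg _) (by positivity)
      _ = _ := mul_one _
  have hS : ∀ τ T, smooth (fun p : Nat.Primes => (p : ℝ)) (fun p j => α p j * val ψ τ p) 1 γ T =
      S α ψ τ γ T := by
    intro τ T
    unfold smooth S
    simp only [term_eq]
  have hval : ∀ τ, (fun T : ℝ => Complex.exp (S α ψ τ γ T) - L τ 1) =O[atTop]
      (fun T : ℝ => 1 / T) := by
    intro τ
    have h1 := (hE τ).value (F := L τ) (s₀ := 1) (by norm_num)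
      (fun x hx hx1 => hmer τ x hx (by linarith))
      (fun s hs => by
        refine (hL τ s (by linarith)).congr_fun fun p => ?_
        have e : aeval (val ψ τ p * (p : ℂ) ^ (-s)) (P p) =
            ∏ j, (1 - α p j * (val ψ τ p * (p : ℂ) ^ (-s))) := by
          rw [aeval_def, eval₂_eq_eval_map, hP p, eval_prod]
          simp
        rw [e, Finset.prod_inv_distrib]
        simp [mul_assoc]) (by rw [Complex.ofReal_one]; exact hA τ) hγ
    simp only [hS, Complex.ofReal_one] at h1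
    exact h1
  have hΩc : (Ω : ℂ) ≠ 0 := by exact_mod_cast hΩ
  refine ⟨fun τ T hT => ?_, hval, ?_⟩
  · simp only [term_eq]
    exact (hE τ).sterm_summable 1 γ hT
  · have hr := relation_iff E (f := fun τ T => gauss ψ τ ^ d * Complex.exp (S α ψ τ γ T))
      (V := fun τ => gauss ψ τ ^ d * L τ 1) (Ω := fun _ => (Ω : ℂ)) (fun _ => hΩc)
      (fun τ => (tendsto_of_rate (hval τ)).const_mul _)
    rw [← hr]
    refine exists_congr fun e => forall_congr' fun τ => ?_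
    rw [div_eq_iff hΩc]

end Pool.Agent.Results.MP_21281f_nt.TwistedPeriodLattice
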